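import Mathlib

/-!
# Product patterns

`CR Y D Φ`: a finite configuration `Y` with squared distances `D` is found, for every finite
colouring and every equivalence relation on a suitable finite point set, as a monochromatic copy on
which the equivalence relation has a pattern satisfying `Φ`.
-/

set_option autoImplicit false

namespace Pool.Agent.H228R5

open Finset

/-- A partial injective map can be properly 3-coloured. -/
lemma three_col {Q : Type} [Finite Q] (φ : Q → Q → Prop)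
    (h1 : ∀ q a b, φ q a → φ q b → a = b) (h2 : ∀ q a b, φ a q → φ b q → a = b) :
    ∃ g : Q → Fin 3, ∀ a b, φ a b → a ≠ b → g a ≠ g b := by
  classical
  have hfin := Fintype.ofFinite Q
  have key : ∀ S : Finset Q, ∃ g : Q → Fin 3, ∀ a ∈ S, ∀ b ∈ S, φ a b → a ≠ b → g a ≠ g b := by
    intro S
    induction S using Finset.induction_on with
    | empty => exact ⟨fun _ => 0, fun a ha => absurd ha (Finset.notMem_empty a)⟩
    | insert v S hv ih =>
      obtain ⟨g, hg⟩ := ih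
      -- colour forbidden by the out-neighbour and by the in-neighbour
      have ho : ∃ x : Fin 3, ∀ b, φ v b → g b = x := by
        by_cases h : ∃ b, φ v b
        · obtain ⟨b, hb⟩ := h
          exact ⟨g b, fun b' hb' => by rw [h1 v b' b hb' hb]⟩
        · push Not at h
          exact ⟨0, fun b hb => absurd hb (h b)⟩
      have hi : ∃ x : Fin 3, ∀ b, φ b v → g b = x := by
        by_cases h : ∃ b, φ b v
        · obtain ⟨b, hb⟩ := h
          exact ⟨g b, fun b' hb' => by rw [h2 v b' b hb' hb]⟩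
        · push Not at h
          exact ⟨0, fun b hb => absurd hb (h b)⟩
      obtain ⟨x, hx⟩ := ho
      obtain ⟨y, hy⟩ := hi
      have hz : ∀ x y : Fin 3, ∃ z : Fin 3, z ≠ x ∧ z ≠ y := by decide
      obtain ⟨z, hzx, hzy⟩ := hz x y
      refine ⟨Function.update g v z, ?_⟩
      intro a ha b hb hab hne
      by_cases hav : a = v
      · subst hav
        rw [Function.update_self, Function.update_of_ne (Ne.symm hne), hx b hab]
        exact hzx
      · by_cases hbv : b = v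
        · subst hbv
          rw [Function.update_self, Function.update_of_ne hne, hy a hab]
          exact Ne.symm hzy
        · rw [Function.update_of_ne hav, Function.update_of_ne hbv]
          exact hg a (Finset.mem_of_mem_insert_of_ne ha hav) b
            (Finset.mem_of_mem_insert_of_ne hb hbv) hab hne
  obtain ⟨g, hg⟩ := key Finset.univ
  exact ⟨g, fun a b => hg a (Finset.mem_univ _) b (Finset.mem_univ _)⟩

/-- Canonical Ramsey property of the configuration `(Y, D)` with patterns restricted by `Φ`. -/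
def CR (Y : Type) (D : Y → Y → ℝ) (Φ : (Y → Y → Prop) → Prop) : Prop :=
  ∀ K : Type, Finite K → ∃ (Z : Type) (_ : Finite Z) (ι : Type) (_ : Fintype ι)
    (pos : Z → ι → ℝ), ∀ (c : Z → K) (E : Z → Z → Prop), Equivalence E →
    ∃ f : Y → Z, (∀ y y', ∑ i, (pos (f y) i - pos (f y') i) ^ 2 = D y y') ∧
      (∀ y y', c (f y) = c (f y')) ∧ Φ (fun y y' => E (f y) (f y'))

theorem CR.mono {Y : Type} {D : Y → Y → ℝ} {Φ Ψ : (Y → Y → Prop) → Prop}
    (h : CR Y D Φ) (hΦ : ∀ ρ, Equivalence ρ → Φ ρ → Ψ ρ) : CR Y D Ψ := by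
  intro K hK
  obtain ⟨Z, hZ, ι, hι, pos, h1⟩ := h K hK
  refine ⟨Z, hZ, ι, hι, pos, fun c E hE => ?_⟩
  obtain ⟨f, hf1, hf2, hf3⟩ := h1 c E hE
  refine ⟨f, hf1, hf2, hΦ _ ⟨fun _ => hE.refl _, fun h => hE.symm h, fun h h' => hE.trans h h'⟩ hf3⟩

theorem CR.map {Y Y' : Type} {D : Y → Y → ℝ} {Φ : (Y → Y → Prop) → Prop}
    (h : CR Y D Φ) (e : Y' → Y) : CR Y' (fun a b => D (e a) (e b))
      (fun ρ' => ∃ ρ, Φ ρ ∧ ∀ a b, ρ' a b ↔ ρ (e a) (e b)) := by
  intro K hK
  obtain ⟨Z, hZ, ι, hι, pos, h1⟩ := h K hK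
  refine ⟨Z, hZ, ι, hι, pos, fun c E hE => ?_⟩
  obtain ⟨f, hf1, hf2, hf3⟩ := h1 c E hE
  exact ⟨fun a => f (e a), fun a b => hf1 _ _, fun a b => hf2 _ _,
    ⟨_, hf3, fun a b => Iff.rfl⟩⟩

theorem CR.prod' {Y₁ Y₂ : Type} [Finite Y₁] [Nonempty Y₁] [Nonempty Y₂] {D₁ : Y₁ → Y₁ → ℝ}
    {D₂ : Y₂ → Y₂ → ℝ} {Φ : (Y₂ → Y₂ → Prop) → Prop}
    (h₁ : CR Y₁ D₁ (fun _ => True)) (h₂ : CR Y₂ D₂ Φ) :
    CR (Y₁ × Y₂) (fun p q => D₁ p.1 q.1 + D₂ p.2 q.2)
      (fun ρ => ∃ (ρ₁ : Y₁ → Y₁ → Prop) (ρ₂ : Y₂ → Y₂ → Prop),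
        Φ ρ₂ ∧ ∀ p q, ρ p q ↔ ρ₁ p.1 q.1 ∧ ρ₂ p.2 q.2) := by
  classical
  intro K hK
  obtain ⟨Z₂, hZ₂, ι₂, hι₂, pos₂, hh₂⟩ := h₂ (K × (Y₁ → Y₁ → Prop × Fin 3)) inferInstance
  obtain ⟨Z₁, hZ₁, ι₁, hι₁, pos₁, hh₁⟩ := h₁ ((Z₂ → Z₂ → Prop) × (Z₂ → K)) inferInstance
  refine ⟨Z₁ × Z₂, inferInstance, ι₁ ⊕ ι₂, inferInstance,
    fun z => Sum.elim (pos₁ z.1) (pos₂ z.2), fun c E hE => ?_⟩
  obtain ⟨f₁, hf1, hf2, -⟩ := hh₁ (fun z => (fun a b => E (z, a) (z, b), fun a => c (z, a)))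
    Eq eq_equivalence
  obtain ⟨y0⟩ := (inferInstance : Nonempty Y₁)
  obtain ⟨w0⟩ := (inferInstance : Nonempty Y₂)
  -- the common pattern of the rows
  have hrow : ∀ y y' a b, E (f₁ y, a) (f₁ y, b) → E (f₁ y', a) (f₁ y', b) := by
    intro y y' a b h
    have h1 := congrFun (congrFun (congrArg Prod.fst (hf2 y y')) a) b
    dsimp only at h1
    rwa [h1] at h
  have hcol : ∀ y y' a, c (f₁ y, a) = c (f₁ y', a) := by
    intro y y' a
    exact congrFun (congrArg Prod.snd (hf2 y y')) a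
  let P : Z₂ → Z₂ → Prop := fun a b => E (f₁ y0, a) (f₁ y0, b)
  have hP : Equivalence P := ⟨fun _ => hE.refl _, fun h => hE.symm h, fun h h' => hE.trans h h'⟩
  let S : Setoid Z₂ := ⟨P, hP⟩
  let φ : Y₁ → Y₁ → Quotient S → Quotient S → Prop := fun y y' q q' =>
    ∃ a b, Quotient.mk S a = q ∧ Quotient.mk S b = q' ∧ E (f₁ y, a) (f₁ y', b)
  have hg : ∀ y y', ∃ g : Quotient S → Fin 3, ∀ q q', φ y y' q q' → q ≠ q' → g q ≠ g q' := by
    intro y y'
    apply three_col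
    · rintro q q1 q2 ⟨a, b, ha, hb, hab⟩ ⟨a', b', ha', hb', hab'⟩
      subst hb hb'
      have h1 : P a a' := Quotient.exact (ha.trans ha'.symm)
      have h2 : E (f₁ y, a) (f₁ y, a') := hrow y0 y a a' h1
      have h3 : E (f₁ y', b) (f₁ y', b') := hE.trans (hE.symm hab) (hE.trans h2 hab')
      exact Quotient.sound (hrow y' y0 b b' h3)
    · rintro q q1 q2 ⟨a, b, ha, hb, hab⟩ ⟨a', b', ha', hb', hab'⟩
      subst ha ha'
      have h1 : P b b' := Quotient.exact (hb.trans hb'.symm)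
      have h2 : E (f₁ y', b) (f₁ y', b') := hrow y0 y' b b' h1
      have h3 : E (f₁ y, a) (f₁ y, a') := hE.trans hab (hE.trans h2 (hE.symm hab'))
      exact Quotient.sound (hrow y y0 a a' h3)
  choose g hg using hg
  obtain ⟨f₂, hf3, hf4, hf5⟩ := hh₂
    (fun a => (c (f₁ y0, a), fun y y' => (E (f₁ y, a) (f₁ y', a), g y y' (Quotient.mk S a)))) P hP
  have hsame : ∀ y y' a b, E (f₁ y, f₂ a) (f₁ y', f₂ a) → E (f₁ y, f₂ b) (f₁ y', f₂ b) := by
    intro y y' a b h
    have h1 := congrArg Prod.fst (congrFun (congrFun (congrArg Prod.snd (hf4 a b)) y) y')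
    dsimp only at h1
    rwa [h1] at h
  have hsameg : ∀ y y' a b, g y y' (Quotient.mk S (f₂ a)) = g y y' (Quotient.mk S (f₂ b)) := by
    intro y y' a b
    exact congrArg Prod.snd (congrFun (congrFun (congrArg Prod.snd (hf4 a b)) y) y')
  refine ⟨fun p => (f₁ p.1, f₂ p.2), ?_, ?_, ?_⟩
  · rintro ⟨y, a⟩ ⟨y', b⟩
    rw [Fintype.sum_sum_type]
    simp only [Sum.elim_inl, Sum.elim_inr]
    rw [hf1, hf3]
  · rintro ⟨y, a⟩ ⟨y', b⟩
    show c (f₁ y, f₂ a) = c (f₁ y', f₂ b)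
    rw [hcol y y0, hcol y' y0]
    exact congrArg Prod.fst (hf4 a b)
  · refine ⟨fun y y' => E (f₁ y, f₂ w0) (f₁ y', f₂ w0), fun a b => P (f₂ a) (f₂ b), hf5, ?_⟩
    rintro ⟨y, a⟩ ⟨y', b⟩
    show E (f₁ y, f₂ a) (f₁ y', f₂ b) ↔ _
    constructor
    · intro h
      have h1 : E (f₁ y, f₂ a) (f₁ y', f₂ a) := by
        by_contra hcon
        have hne : Quotient.mk S (f₂ a) ≠ Quotient.mk S (f₂ b) := by
          intro heq
          have h2 : P (f₂ a) (f₂ b) := Quotient.exact heq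
          exact hcon (hE.trans h (hE.symm (hrow y0 y' _ _ h2)))
        exact hg y y' _ _ ⟨_, _, rfl, rfl, h⟩ hne (hsameg y y' a b)
      refine ⟨hsame _ _ _ _ h1, hrow y' y0 _ _ (hE.trans (hE.symm h1) h)⟩
    · rintro ⟨h1, h2⟩
      exact hE.trans (hsame _ _ _ a h1) (hrow y0 y' _ _ h2)

theorem CR.pow {Y V : Type} [Finite Y] [Nonempty Y] [Nonempty V] {D : Y → Y → ℝ}
    {DV : V → V → ℝ} (h : CR Y D (fun _ => True)) (hV : CR V DV (fun _ => True)) :
    ∀ n : ℕ, CR ((Fin n → Y) × V) (fun p q => ∑ i, D (p.1 i) (q.1 i) + DV p.2 q.2)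
      (fun ρ => ∃ (ρi : Fin n → Y → Y → Prop) (ρV : V → V → Prop),
        ∀ p q, ρ p q ↔ (∀ i, ρi i (p.1 i) (q.1 i)) ∧ ρV p.2 q.2)
  | 0 => by
    have h1 := (hV.map (Prod.snd : (Fin 0 → Y) × V → V)).mono
      (Ψ := (fun ρ => ∃ (ρi : Fin 0 → Y → Y → Prop) (ρV : V → V → Prop),
        ∀ p q, ρ p q ↔ (∀ i, ρi i (p.1 i) (q.1 i)) ∧ ρV p.2 q.2)) (by
        rintro ρ - ⟨ρ', -, hρ⟩
        refine ⟨fun i => i.elim0, ρ', fun p q => ?_⟩
        rw [hρ]
        constructor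
        · intro h; exact ⟨fun i => i.elim0, h⟩
        · intro h; exact h.2)
    simpa using h1
  | (n + 1) => by
    have ih := CR.pow h hV n
    have h1 := (CR.prod' h ih).map
      (fun p : (Fin (n + 1) → Y) × V => (p.1 0, ((fun i => p.1 (Fin.succ i) : Fin n → Y), p.2)))
    have h2 := h1.mono (Ψ := (fun ρ => ∃ (ρi : Fin (n + 1) → Y → Y → Prop) (ρV : V → V → Prop),
        ∀ p q, ρ p q ↔ (∀ i, ρi i (p.1 i) (q.1 i)) ∧ ρV p.2 q.2)) (by
        rintro ρ - ⟨ρ', ⟨ρ1, ρ2, ⟨ρi, ρV, h5⟩, h4⟩, h3⟩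
        refine ⟨Fin.cons ρ1 ρi, ρV, fun p q => ?_⟩
        rw [h3, h4, h5]
        dsimp only
        rw [Fin.forall_fin_succ]
        simp only [Fin.cons_zero, Fin.cons_succ]
        tauto)
    convert h2 using 1
    funext p q
    rw [Fin.sum_univ_succ]
    ring

/-- Symmetrisation: a configuration indexed by a group with right-invariant distances has a copy
(scaled by the square root of the group order) with a right-invariant pattern. -/
theorem CR.symm {G V : Type} [Group G] [Fintype G] [Nonempty V] {D : G → G → ℝ}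
    {DV : V → V → ℝ} (h : CR G D (fun _ => True)) (hV : CR V DV (fun _ => True))
    (hD : ∀ σ τ g, D (σ * g) (τ * g) = D σ τ) (hD0 : ∀ σ, D σ σ = 0) :
    CR (G × V) (fun p q => Fintype.card G * D p.1 q.1 + DV p.2 q.2)
      (fun ρ => ∃ (κ : G → G → Prop) (ρV : V → V → Prop),
        (∀ σ τ g, κ σ τ → κ (σ * g) (τ * g)) ∧ ∀ p q, ρ p q ↔ κ p.1 q.1 ∧ ρV p.2 q.2) := by
  classical
  have hfin : Fintype (G → G → Prop) := Fintype.ofFinite _
  let N : ℕ := Fintype.card (G → G → Prop) * Fintype.card G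
  intro K hK
  obtain ⟨Z, hZ, ι, hι, pos, h1⟩ := CR.pow h hV N K hK
  refine ⟨Z, hZ, ι, hι, pos, fun c E hE => ?_⟩
  obtain ⟨f, hf1, hf2, ρi, ρV, hρ⟩ := h1 c E hE
  obtain ⟨v0⟩ := (inferInstance : Nonempty V)
  have hcard : ∃ ρ0, Fintype.card G ≤ (Finset.univ.filter (fun i => ρi i = ρ0)).card := by
    have : Nonempty (G → G → Prop) := ⟨fun _ _ => True⟩
    obtain ⟨y, hy⟩ := Fintype.exists_le_card_fiber_of_mul_le_card (f := ρi) (n := Fintype.card G)
      (by simp [N])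
    exact ⟨y, hy⟩
  obtain ⟨ρ0, hρ0⟩ := hcard
  have hemb : ∃ e : G → Fin N, Function.Injective e ∧ ∀ g, ρi (e g) = ρ0 := by
    generalize hs : Finset.univ.filter (fun i => ρi i = ρ0) = s at hρ0
    have hmem : ∀ i ∈ s, ρi i = ρ0 := by
      intro i hi
      rw [← hs, Finset.mem_filter] at hi
      exact hi.2
    have h2 : Fintype.card G ≤ Fintype.card s := by
      rw [Fintype.card_coe]; exact hρ0
    obtain ⟨e⟩ := Function.Embedding.nonempty_of_card_le h2
    exact ⟨fun g => (e g).1, fun a b hab => e.injective (Subtype.ext hab),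
      fun g => hmem _ (e g).2⟩
  obtain ⟨e, he, hee⟩ := hemb
  have hrefl : ∀ i y, ρi i y y := by
    intro i y
    have h2 : E (f (fun _ => y, v0)) (f (fun _ => y, v0)) := hE.refl _
    exact ((hρ (fun _ => y, v0) (fun _ => y, v0)).1 h2).1 i
  let x : G → Fin N → G := fun g => Function.extend e (fun a => g * a) (fun _ => 1)
  have hx1 : ∀ g a, x g (e a) = g * a := fun g a => he.extend_apply _ _ _
  have hx2 : ∀ g i, i ∉ Set.range e → x g i = 1 := by
    intro g i hi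
    exact Function.extend_apply' _ _ _ (by simpa using hi)
  refine ⟨fun p => f (x p.1, p.2), ?_, ?_, ?_⟩
  · rintro ⟨g, v⟩ ⟨g', v'⟩
    rw [hf1]
    congr 1
    dsimp only
    rw [← Fintype.sum_of_injective e he (fun a => D (g * a) (g' * a))
      (fun i => D (x g i) (x g' i))]
    · simp_rw [hD]
      simp
    · intro i hi
      rw [hx2 g i hi, hx2 g' i hi, hD0]
    · intro a
      rw [hx1, hx1]
  · intro p q; exact hf2 _ _
  · refine ⟨fun σ τ => ∀ a, ρ0 (σ * a) (τ * a), ρV, ?_, ?_⟩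
    · intro σ τ g h2 a
      rw [mul_assoc, mul_assoc]
      exact h2 (g * a)
    · rintro ⟨g, v⟩ ⟨g', v'⟩
      have h3 := hρ (x g, v) (x g', v')
      refine Iff.trans h3 ?_
      dsimp only
      refine and_congr ?_ Iff.rfl
      constructor
      · intro h4 a
        have := h4 (e a)
        rwa [hx1, hx1, hee] at this
      · intro h4 i
        by_cases hi : i ∈ Set.range e
        · obtain ⟨a, rfl⟩ := hi
          rw [hx1, hx1, hee]
          exact h4 a
        · rw [hx2 g i hi, hx2 g' i hi]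
          exact hrefl i 1

end Pool.Agent.H228R5
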