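import Pool.Agent.H228R5.Main

/-!
# Transitive sets are canonically Ramsey
-/

set_option autoImplicit false

namespace Pool.Agent.H228R5

open Finset

theorem canon_euclid (d : ℕ) (Z : Set (EuclideanSpace ℝ (Fin d))) (hZ : Z.Finite)
    (htr : ∀ x ∈ Z, ∀ y ∈ Z, ∃ g : EuclideanSpace ℝ (Fin d) ≃ᵢ EuclideanSpace ℝ (Fin d),
      ⇑g '' Z = Z ∧ g x = y) :
    ∃ n : ℕ, ∀ r : EuclideanSpace ℝ (Fin n) → EuclideanSpace ℝ (Fin n) → Prop, Equivalence r →
      ∃ g : EuclideanSpace ℝ (Fin d) → EuclideanSpace ℝ (Fin n),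
        (∀ x ∈ Z, ∀ y ∈ Z, dist (g x) (g y) = dist x y) ∧
        ((∀ x ∈ Z, ∀ y ∈ Z, r (g x) (g y)) ∨ (∀ x ∈ Z, ∀ y ∈ Z, r (g x) (g y) → x = y)) := by
  classical
  by_cases hss : Z.Subsingleton
  · refine ⟨0, fun r hr => ⟨fun _ => 0, ?_, Or.inl ?_⟩⟩
    · intro x hx y hy
      rw [hss hx hy, dist_self, dist_self]
    · intro x _ y _
      exact hr.refl _
  have hne : Z.Nonempty := by
    by_contra h
    rw [Set.not_nonempty_iff_eq_empty] at h
    rw [h] at hss
    exact hss Set.subsingleton_empty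
  have hd : Nonempty (Fin d) := by
    by_contra h
    rw [not_nonempty_iff] at h
    apply hss
    intro x _ y _
    ext i
    exact h.elim i
  have hZf : Finite Z := hZ
  have hZn : Nonempty Z := hne.to_subtype
  -- the group of permutations of `Z` induced by isometries
  let Q : Subgroup (Equiv.Perm Z) :=
    { carrier := {π | ∃ g : EuclideanSpace ℝ (Fin d) ≃ᵢ EuclideanSpace ℝ (Fin d),
        ∀ x : Z, g x = (π x : EuclideanSpace ℝ (Fin d))}
      mul_mem' := by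
        rintro a b ⟨g, hg⟩ ⟨h, hh⟩
        refine ⟨g * h, fun x => ?_⟩
        rw [IsometryEquiv.mul_apply, hh, hg]
        rfl
      one_mem' := ⟨1, fun x => rfl⟩
      inv_mem' := by
        rintro a ⟨g, hg⟩
        refine ⟨g⁻¹, fun x => ?_⟩
        have h1 := hg (a⁻¹ x)
        have h2 : a (a⁻¹ x) = x := by simp
        rw [h2] at h1
        rw [← h1]
        exact g.symm_apply_apply _ }
  have hQtr : ∀ a b : Z, ∃ π : Q, π.1 b = a := by
    intro a b
    obtain ⟨g, hgX, hgb⟩ := htr b.1 b.2 a.1 a.2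
    have hmem : ∀ x : Z, g x ∈ Z := by
      intro x
      have hx : g x ∈ ⇑g '' Z := ⟨x, x.2, rfl⟩
      rwa [hgX] at hx
    have hbij : Function.Bijective (fun x : Z => (⟨g x, hmem x⟩ : Z)) := by
      constructor
      · intro x y hxy
        have := congrArg Subtype.val hxy
        exact Subtype.ext (g.injective this)
      · intro y
        have hy : (y : EuclideanSpace ℝ (Fin d)) ∈ ⇑g '' Z := by rw [hgX]; exact y.2
        obtain ⟨x, hx, hxy⟩ := hy
        exact ⟨⟨x, hx⟩, Subtype.ext hxy⟩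
    refine ⟨⟨Equiv.ofBijective _ hbij, g, fun x => rfl⟩, ?_⟩
    exact Subtype.ext hgb
  have hQf : Fintype Q := Fintype.ofFinite Q
  have hdist : ∀ (π : Q) (x y : Z),
      dist (π.1 x : EuclideanSpace ℝ (Fin d)) (π.1 y) = dist (x : EuclideanSpace ℝ (Fin d)) y := by
    rintro ⟨π, g, hg⟩ x y
    rw [← hg, ← hg, g.dist_eq]
  obtain ⟨z0⟩ := hZn
  have hZn2 : Nonempty Z := ⟨z0⟩
  choose ρ hρ using fun z : Z => hQtr z z0
  let u : Q × Fin d → ℝ := fun q => (q.1.1 z0 : EuclideanSpace ℝ (Fin d)) q.2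
  let σ : Z → Equiv.Perm (Q × Fin d) := fun z =>
    Equiv.prodCongr (Equiv.mulRight (ρ z)) (Equiv.refl (Fin d))
  have hu : ∀ z q, u (σ z q) = (q.1.1 z : EuclideanSpace ℝ (Fin d)) q.2 := by
    intro z q
    simp only [u, σ, Equiv.prodCongr_apply, Prod.map_fst, Prod.map_snd, Equiv.coe_mulRight,
      Equiv.refl_apply]
    have h1 : (q.1 * ρ z).1 z0 = q.1.1 z := by
      show q.1.1 ((ρ z).1 z0) = _
      rw [hρ z]
    rw [h1]
  have hcQ : (0 : ℝ) < Fintype.card Q := by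
    have : 0 < Fintype.card Q := Fintype.card_pos
    exact_mod_cast this
  obtain ⟨ι, hι, hmain⟩ := canon_words (X := Z) u σ (1 / Fintype.card Q) (by positivity)
  let e : ι ≃ Fin (Fintype.card ι) := Fintype.equivFin ι
  refine ⟨Fintype.card ι, fun r hr => ?_⟩
  obtain ⟨f, hf1, hf2⟩ := hmain
    (fun a b => r (WithLp.toLp 2 (fun i => a (e.symm i))) (WithLp.toLp 2 (fun i => b (e.symm i))))
    ⟨fun _ => hr.refl _, fun h => hr.symm h, fun h h' => hr.trans h h'⟩
  let g : EuclideanSpace ℝ (Fin d) → EuclideanSpace ℝ (Fin (Fintype.card ι)) := fun z =>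
    if h : z ∈ Z then WithLp.toLp 2 (fun i => f ⟨z, h⟩ (e.symm i)) else 0
  have hg : ∀ z (h : z ∈ Z), g z = WithLp.toLp 2 (fun i => f ⟨z, h⟩ (e.symm i)) := by
    intro z h
    simp only [g]
    rw [dif_pos h]
  refine ⟨g, ?_, ?_⟩
  · intro x hx y hy
    rw [hg x hx, hg y hy, EuclideanSpace.dist_eq]
    have h1 : ∑ i, dist (f ⟨x, hx⟩ (e.symm i)) (f ⟨y, hy⟩ (e.symm i)) ^ 2 = dist x y ^ 2 := by
      have h2 : ∀ i, dist (f ⟨x, hx⟩ (e.symm i)) (f ⟨y, hy⟩ (e.symm i)) ^ 2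
          = (f ⟨x, hx⟩ (e.symm i) - f ⟨y, hy⟩ (e.symm i)) ^ 2 := by
        intro i
        rw [Real.dist_eq, sq_abs]
      simp_rw [h2]
      rw [Equiv.sum_comp e.symm (fun i => (f ⟨x, hx⟩ i - f ⟨y, hy⟩ i) ^ 2), hf1]
      simp_rw [hu]
      rw [Fintype.sum_prod_type]
      have h3 : ∀ π : Q, ∑ i, (((π.1 ⟨x, hx⟩ : Z) : EuclideanSpace ℝ (Fin d)) i
          - ((π.1 ⟨y, hy⟩ : Z) : EuclideanSpace ℝ (Fin d)) i) ^ 2 = dist x y ^ 2 := by
        intro π
        rw [← hdist π ⟨x, hx⟩ ⟨y, hy⟩, EuclideanSpace.dist_eq, Real.sq_sqrt]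
        · refine Finset.sum_congr rfl fun i _ => ?_
          rw [Real.dist_eq, sq_abs]
        · exact Finset.sum_nonneg fun i _ => sq_nonneg _
      simp_rw [h3]
      simp only [Finset.sum_const, Finset.card_univ, nsmul_eq_mul]
      field_simp
    have h4 : ∑ i, dist ((WithLp.toLp 2 (fun i => f ⟨x, hx⟩ (e.symm i)) :
        EuclideanSpace ℝ (Fin (Fintype.card ι))) i)
        ((WithLp.toLp 2 (fun i => f ⟨y, hy⟩ (e.symm i)) :
        EuclideanSpace ℝ (Fin (Fintype.card ι))) i) ^ 2 = dist x y ^ 2 := h1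
    rw [h4, Real.sqrt_sq dist_nonneg]
  · rcases hf2 with h | h
    · left
      intro x hx y hy
      rw [hg x hx, hg y hy]
      exact h _ _
    · right
      intro x hx y hy hxy
      rw [hg x hx, hg y hy] at hxy
      have h1 := h _ _ hxy
      ext i
      have h2 := h1 (1, i)
      rw [hu, hu] at h2
      exact h2

end Pool.Agent.H228R5
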