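import Mathlib

/-!
# Canonical homothetic copies on the line

For a finite family of reals, every equivalence relation on a suitable finite set of reals has a
homothetic copy of the family that lies in one class (ratio a positive integer) or separates
different values (real ratio).
-/

set_option autoImplicit false

namespace Pool.Agent.H228R5

open Finset Combinatorics

lemma line_sum {α ι : Type} [Fintype ι] (l : Line α ι) :
    ∃ (k : ℕ) (b : (α → ℝ) → ℝ), 0 < k ∧ k ≤ Fintype.card ι ∧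
      ∀ (g : α → ℝ) (x : α), ∑ s, g (l x s) = b g + k * g x := by
  classical
  refine ⟨(Finset.univ.filter (fun s => l.idxFun s = none)).card,
    fun g => ∑ s, (l.idxFun s).elim 0 g, ?_, ?_, ?_⟩
  · obtain ⟨i, hi⟩ := l.proper
    exact Finset.card_pos.2 ⟨i, by simp [hi]⟩
  · exact Finset.card_le_univ _
  · intro g x
    have h1 : ∀ s, g (l x s) = (l.idxFun s).elim 0 g + (if l.idxFun s = none then g x else 0) := by
      intro s
      rw [Line.coe_apply]
      cases l.idxFun s with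
      | none => simp
      | some a => simp
    simp_rw [h1]
    rw [Finset.sum_add_distrib, ← Finset.sum_filter, Finset.sum_const, nsmul_eq_mul]

theorem gal {I : Type} [Finite I] [Nonempty I] (ℓ : I → ℝ) :
    ∃ (A : Finset ℝ) (L : ℕ) (T : Finset ℝ), ∀ r : ℝ → ℝ → Prop, Equivalence r →
      (∃ (c : ℝ) (k : ℕ), 0 < k ∧ k ≤ L ∧ (∀ i, c + k * ℓ i ∈ A) ∧
        ∀ i j, r (c + k * ℓ i) (c + k * ℓ j)) ∨
      (∃ a : ℝ, ∃ t ∈ T, (∀ i, a + t * ℓ i ∈ A) ∧
        ∀ i j, r (a + t * ℓ i) (a + t * ℓ j) → ℓ i = ℓ j) := by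
  classical
  have hI : Fintype I := Fintype.ofFinite I
  obtain ⟨ι, hι, hHJ⟩ := Line.exists_mono_in_high_dimension (I × I × I) (I → I → Prop)
  let v1 : I × I × I → ℝ := fun q => -(ℓ q.1 * ℓ q.2.2) / (ℓ q.2.1 - ℓ q.1)
  let v2 : I × I × I → ℝ := fun q => ℓ q.2.2 / (ℓ q.2.1 - ℓ q.1)
  let av : (ι → I × I × I) → ℝ := fun w => ∑ s, v1 (w s)
  let tv : (ι → I × I × I) → ℝ := fun w => ∑ s, v2 (w s)
  refine ⟨Finset.univ.image (fun q : (ι → I × I × I) × I => av q.1 + tv q.1 * ℓ q.2),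
    Fintype.card ι, Finset.univ.image tv, fun r hr => ?_⟩
  obtain ⟨l, ρ, hρ⟩ := hHJ (fun w i j => r (av w + tv w * ℓ i) (av w + tv w * ℓ j))
  have hmem : ∀ w i, av w + tv w * ℓ i ∈
      Finset.univ.image (fun q : (ι → I × I × I) × I => av q.1 + tv q.1 * ℓ q.2) :=
    fun w i => Finset.mem_image.2 ⟨(w, i), Finset.mem_univ _, rfl⟩
  obtain ⟨i1⟩ := (inferInstance : Nonempty I)
  by_cases hcase : ∀ i j, ρ i j → ℓ i = ℓ j
  · right
    let w := l (i1, i1, i1)
    refine ⟨av w, tv w, Finset.mem_image_of_mem _ (Finset.mem_univ _), hmem w, ?_⟩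
    intro i j hij
    apply hcase
    rw [← hρ (i1, i1, i1)]
    exact hij
  · left
    push Not at hcase
    obtain ⟨i0, j0, hij, hne⟩ := hcase
    have hne' : ℓ j0 - ℓ i0 ≠ 0 := fun h => hne (by linarith)
    obtain ⟨k, b, hk, hkL, hb⟩ := line_sum l
    have ha : ∀ z, av (l (i0, j0, z)) = b v1 + k * v1 (i0, j0, z) := fun z => hb v1 _
    have ht : ∀ z, tv (l (i0, j0, z)) = b v2 + k * v2 (i0, j0, z) := fun z => hb v2 _
    have h1 : ∀ z, av (l (i0, j0, z)) + tv (l (i0, j0, z)) * ℓ i0 = b v1 + b v2 * ℓ i0 := by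
      intro z
      rw [ha, ht]
      simp only [v1, v2]
      field_simp
      ring
    have h2 : ∀ z, av (l (i0, j0, z)) + tv (l (i0, j0, z)) * ℓ j0
        = (b v1 + b v2 * ℓ j0) + k * ℓ z := by
      intro z
      rw [ha, ht]
      simp only [v1, v2]
      field_simp
      ring
    have h3 : ∀ z, r (b v1 + b v2 * ℓ i0) ((b v1 + b v2 * ℓ j0) + k * ℓ z) := by
      intro z
      rw [← h1 z, ← h2 z]
      have h4 : (fun i j => r (av (l (i0, j0, z)) + tv (l (i0, j0, z)) * ℓ i)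
        (av (l (i0, j0, z)) + tv (l (i0, j0, z)) * ℓ j)) = ρ := hρ (i0, j0, z)
      have h5 := congrFun (congrFun h4 i0) j0
      rw [h5]
      exact hij
    refine ⟨b v1 + b v2 * ℓ j0, k, hk, hkL, ?_, ?_⟩
    · intro z
      rw [← h2 z]
      exact hmem _ _
    · intro z z'
      exact hr.trans (hr.symm (h3 z)) (h3 z')

end Pool.Agent.H228R5
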