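import Mathlib

/-!
# Subgroups of a symmetric group containing a Young subgroup with generic block sizes
-/

set_option autoImplicit false

namespace Pool.Agent.H228R5

open Finset Equiv

variable {P : Type} [DecidableEq P] [Fintype P] {H : Subgroup (Perm P)}

lemma rel_conj {σ : Perm P} (hσ : σ ∈ H) {p q : P} (h : swap p q ∈ H) :
    swap (σ p) (σ q) ∈ H := by
  rw [swap_apply_apply]
  exact H.mul_mem (H.mul_mem hσ h) (H.inv_mem hσ)

lemma rel_refl (p : P) : swap p p ∈ H := by
  rw [swap_self]; exact H.one_mem

lemma rel_symm {p q : P} (h : swap p q ∈ H) : swap q p ∈ H := by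
  rwa [swap_comm]

lemma rel_trans {p q r : P} (h1 : swap p q ∈ H) (h2 : swap q r ∈ H) : swap p r ∈ H := by
  by_cases hpq : p = q
  · subst hpq; exact h2
  by_cases hpr : p = r
  · subst hpr; exact rel_refl p
  have h3 := rel_conj h2 h1
  rwa [swap_apply_left, swap_apply_of_ne_of_ne hpq hpr] at h3

/-- A permutation moving every point inside its class belongs to `H`. -/
theorem mem_of_rel : ∀ (n : ℕ) (σ : Perm P), σ.support.card ≤ n →
    (∀ p, swap (σ p) p ∈ H) → σ ∈ H := by
  intro n
  induction n with
  | zero =>
    intro σ hσ _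
    have : σ = 1 := by
      rw [← Perm.support_eq_empty_iff, ← Finset.card_eq_zero]; omega
    rw [this]; exact H.one_mem
  | succ n ih =>
    intro σ hσ hrel
    by_cases h1 : σ = 1
    · rw [h1]; exact H.one_mem
    · have hex : ∃ p, σ p ≠ p := by
        by_contra hcon
        push Not at hcon
        exact h1 (Equiv.ext hcon)
      obtain ⟨p, hp⟩ := hex
      have hlt := Perm.card_support_swap_mul hp
      have hmem : swap p (σ p) * σ ∈ H := by
        apply ih _ (by omega)
        intro q
        rw [Perm.mul_apply]
        by_cases h2 : σ q = p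
        · rw [h2, swap_apply_left]
          exact rel_trans (hrel p) (h2 ▸ hrel q)
        · by_cases h3 : σ q = σ p
          · have h4 : q = p := σ.injective h3
            subst h4
            rw [swap_apply_right]
            exact rel_refl q
          · rw [swap_apply_of_ne_of_ne h2 h3]
            exact hrel q
      have h5 : swap p (σ p) * (swap p (σ p) * σ) ∈ H :=
        H.mul_mem (rel_symm (hrel p)) hmem
      rwa [swap_mul_self_mul] at h5

/-- With generic block sizes a member of `H` moves every point inside its class. -/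
theorem rel_of_mem {𝔸 : Type} [Fintype 𝔸] (w : P → 𝔸) (idx : 𝔸 → ℕ)
    (hidx : Function.Injective idx) (R : ℕ) (hR : 0 < R)
    (hcard : ∀ a, Nat.card {p // w p = a} = R * 2 ^ idx a)
    (hH : ∀ p q, w p = w q → swap p q ∈ H) {σ : Perm P} (hσ : σ ∈ H) (p : P) :
    swap (σ p) p ∈ H := by
  classical
  -- letters of the class of `p`
  let S : P → Finset 𝔸 := fun p => Finset.univ.filter (fun a => ∃ q, w q = a ∧ swap q p ∈ H)
  have hcl : ∀ p, (Finset.univ.filter (fun q => swap q p ∈ H)).card = ∑ a ∈ S p, R * 2 ^ idx a := by
    intro p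
    rw [Finset.card_eq_sum_card_fiberwise (f := w) (t := S p)]
    · refine Finset.sum_congr rfl fun a ha => ?_
      rw [← hcard a, Nat.card_eq_fintype_card, Fintype.card_subtype]
      congr 1
      ext q
      simp only [Finset.mem_filter, Finset.mem_univ, true_and]
      constructor
      · rintro ⟨_, h⟩; exact h
      · intro h
        simp only [S, Finset.mem_filter, Finset.mem_univ, true_and] at ha
        obtain ⟨q', hq', hq'p⟩ := ha
        exact ⟨rel_trans (hH q q' (h.trans hq'.symm)) hq'p, h⟩
    · intro q hq
      simp only [Finset.coe_filter, Finset.mem_univ, true_and, Set.mem_ofPred_eq] at hq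
      simp only [S, Finset.coe_filter, Finset.mem_univ, true_and, Set.mem_ofPred_eq]
      exact ⟨q, rfl, hq⟩
  have hsz : (Finset.univ.filter (fun q => swap q (σ p) ∈ H)).card
      = (Finset.univ.filter (fun q => swap q p ∈ H)).card := by
    symm
    refine Finset.card_bij (fun q _ => σ q) ?_ ?_ ?_
    · intro q hq
      simp only [Finset.mem_filter, Finset.mem_univ, true_and] at hq ⊢
      exact rel_conj hσ hq
    · intro a _ b _ hab
      exact σ.injective hab
    · intro b hb
      simp only [Finset.mem_filter, Finset.mem_univ, true_and] at hb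
      refine ⟨σ⁻¹ b, ?_, by simp⟩
      simp only [Finset.mem_filter, Finset.mem_univ, true_and]
      have := rel_conj (H.inv_mem hσ) hb
      simpa using this
  rw [hcl, hcl, ← Finset.mul_sum, ← Finset.mul_sum] at hsz
  have hsz2 := Nat.eq_of_mul_eq_mul_left hR hsz
  have hS : S (σ p) = S p := by
    have h1 : ∀ s : Finset 𝔸, ∑ a ∈ s, 2 ^ idx a = ∑ k ∈ s.image idx, 2 ^ k := by
      intro s
      rw [Finset.sum_image (fun a _ b _ h => hidx h)]
    rw [h1, h1] at hsz2
    have h2 := Finset.geomSum_injective (n := 2) le_rfl hsz2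
    exact Finset.image_injective hidx h2
  have hmem : w (σ p) ∈ S (σ p) := by
    simp only [S, Finset.mem_filter, Finset.mem_univ, true_and]
    exact ⟨σ p, rfl, rel_refl _⟩
  rw [hS] at hmem
  simp only [S, Finset.mem_filter, Finset.mem_univ, true_and] at hmem
  obtain ⟨q, hq, hqp⟩ := hmem
  exact rel_trans (hH (σ p) q hq.symm) hqp

end Pool.Agent.H228R5
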