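import Pool.Agent.H874R3.MQ.Stmts

/-!
# Task MQ-P of project H874-MQ
-/

set_option autoImplicit false

open Real Set
open scoped ContDiff

namespace Pool.Agent.H228R5.MQP

open Pool.Agent.H874R3.MQ

theorem taskP : TaskP := by
  intro α x0 hα0 hα1 hx0 hx1
  set ρ0 : ℝ := x0 + α * (1 - x0) with hρ0
  have hρ0α : α < ρ0 := by
    have h1 : ρ0 - α = x0 * (1 - α) := by rw [hρ0]; ring
    have h2 : 0 < x0 * (1 - α) := mul_pos hx0 (by linarith)
    linarith
  have hρ01 : ρ0 < 1 := by
    have h1 : 1 - ρ0 = (1 - x0) * (1 - α) := by rw [hρ0]; ring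
    have h2 : 0 < (1 - x0) * (1 - α) := mul_pos (by linarith) (by linarith)
    linarith
  set s0 : ℝ := ρ0 ^ 2 with hs0
  have hs0α : α ^ 2 < s0 := by rw [hs0]; nlinarith
  have hs01 : s0 < 1 := by rw [hs0]; nlinarith
  set c0 : ℝ := (α ^ 2 + s0) / 2 with hc0
  have hc0s : c0 < s0 := by rw [hc0]; linarith
  have hc0α : α ^ 2 < c0 := by rw [hc0]; linarith
  let θ : ℝ → ℝ := fun s => Real.smoothTransition ((s - c0) / (s0 - c0))
  let u : ℝ → ℝ := fun s => s0 + (s - s0) * θ s
  have hθ : ContDiff ℝ ∞ θ := by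
    have h1 : ContDiff ℝ ∞ (fun s : ℝ => (s - c0) / (s0 - c0)) := by fun_prop
    exact Real.smoothTransition.contDiff.comp h1
  have hu : ContDiff ℝ ∞ u := by
    have h1 : ContDiff ℝ ∞ (fun s : ℝ => s - s0) := by fun_prop
    exact contDiff_const.add (h1.mul hθ)
  have hpos : 0 < s0 - c0 := by linarith
  have hθ0 : ∀ s, s ≤ c0 → θ s = 0 := fun s hs =>
    Real.smoothTransition.zero_of_nonpos (div_nonpos_of_nonpos_of_nonneg (by linarith) hpos.le)
  have hθ1 : ∀ s, s0 ≤ s → θ s = 1 := fun s hs =>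
    Real.smoothTransition.one_of_one_le (by rw [le_div_iff₀ hpos]; linarith)
  have hθn : ∀ s, 0 ≤ θ s := fun s => Real.smoothTransition.nonneg _
  have hθl : ∀ s, θ s ≤ 1 := fun s => Real.smoothTransition.le_one _
  have hu1 : ∀ s, s0 ≤ s → u s = s := by
    intro s hs
    simp only [u]
    rw [hθ1 s hs]; ring
  have huc : ∀ s, c0 ≤ u s := by
    intro s
    rcases le_total s0 s with h | h
    · rw [hu1 s h]; linarith
    · rcases le_total s c0 with h' | h'
      · simp only [u]
        rw [hθ0 s h']; linarith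
      · simp only [u]
        have h1 := hθn s
        have h2 := hθl s
        nlinarith
  have hul : ∀ s, s < 1 → u s < 1 := by
    intro s hs
    rcases le_total s0 s with h | h
    · rw [hu1 s h]; exact hs
    · simp only [u]
      have h1 := hθn s
      nlinarith
  have hupos : ∀ s, 0 < u s := fun s => by
    have := huc s
    have h2 : 0 ≤ α ^ 2 := sq_nonneg α
    linarith
  let X : ℝ → ℝ := fun s => (√(u s) - α) / (1 - α)
  have h1α : 0 < 1 - α := by linarith
  have hX : ContDiff ℝ ∞ X := by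
    have h1 : ContDiff ℝ ∞ (fun s => √(u s)) := hu.sqrt (fun s => (hupos s).ne')
    exact (h1.sub contDiff_const).div_const _
  refine ⟨fun s => 2 * α * X s * (1 - X s), ?_, ?_, ?_⟩
  · exact (contDiff_const.mul hX).mul (contDiff_const.sub hX)
  · intro s hs
    have h1 : α < √(u s) := by
      rw [Real.lt_sqrt hα0.le]
      linarith [huc s]
    have h2 : √(u s) < 1 := by
      rw [Real.sqrt_lt' one_pos]
      simpa using hul s hs
    have h3 : 0 < X s := div_pos (by linarith) h1α
    have h4 : X s < 1 := by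
      simp only [X]
      rw [div_lt_one h1α]; linarith
    have h5 : 0 < 1 - X s := by linarith
    positivity
  · intro x hx hx'
    have h1 : ρ0 ≤ x + α * (1 - x) := by
      have : x + α * (1 - x) - ρ0 = (x - x0) * (1 - α) := by rw [hρ0]; ring
      have h2 : 0 ≤ (x - x0) * (1 - α) := mul_nonneg (by linarith) h1α.le
      linarith
    have h2 : 0 < x + α * (1 - x) := by linarith
    have h3 : s0 ≤ (x + α * (1 - x)) ^ 2 := by
      rw [hs0]
      exact pow_le_pow_left₀ (by linarith) h1 2
    have h4 : X ((x + α * (1 - x)) ^ 2) = x := by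
      simp only [X]
      rw [hu1 _ h3, Real.sqrt_sq h2.le]
      field_simp
      ring
    show 2 * α * X ((x + α * (1 - x)) ^ 2) * (1 - X ((x + α * (1 - x)) ^ 2)) = _
    rw [h4]
    ring

end Pool.Agent.H228R5.MQP
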