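import Pool.Agent.H228R5.Words
import Pool.Agent.H228R5.Gal
import Pool.Agent.H228R5.Grp

/-!
# Sets of rearrangements of a real word are canonically Ramsey
-/

set_option autoImplicit false

namespace Pool.Agent.H228R5

open Finset Equiv

/-- A block system in `Σ a, Fin (R * 2 ^ idx a)`. -/
lemma exists_blocks {𝔸 P0 : Type} [Fintype P0] (idx : 𝔸 → ℕ) (R D' : ℕ)
    (hR : Fintype.card P0 * D' ≤ R) (a : P0 → 𝔸) :
    ∃ j : (P0 × Fin D') ↪ (Σ b : 𝔸, Fin (R * 2 ^ idx b)), ∀ q, (j q).1 = a q.1 := by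
  classical
  have hle : ∀ b : 𝔸, Fintype.card P0 * D' ≤ R * 2 ^ idx b := fun b =>
    hR.trans (Nat.le_mul_of_pos_right _ (by positivity))
  let e0 : P0 ≃ Fin (Fintype.card P0) := Fintype.equivFin P0
  let e : P0 × Fin D' → Fin (Fintype.card P0 * D') := fun q => finProdFinEquiv (e0 q.1, q.2)
  have he : Function.Injective e := by
    intro q q' h
    have h1 := finProdFinEquiv.injective h
    obtain ⟨h2, h3⟩ := Prod.mk.inj h1
    exact Prod.ext (e0.injective h2) h3
  refine ⟨⟨fun q => ⟨a q.1, Fin.castLE (hle _) (e q)⟩, ?_⟩, fun q => rfl⟩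
  intro q q' h
  apply he
  have h1 : ((⟨a q.1, Fin.castLE (hle _) (e q)⟩ : Σ b : 𝔸, Fin (R * 2 ^ idx b)).2 : ℕ)
      = ((⟨a q'.1, Fin.castLE (hle _) (e q')⟩ : Σ b : 𝔸, Fin (R * 2 ^ idx b)).2 : ℕ) := by
    dsimp only at h
    rw [h]
  exact Fin.ext (by simpa using h1)

theorem canon_words {X P0 : Type} [Finite X] [Nonempty X] [Fintype P0] [Nonempty P0]
    (u : P0 → ℝ) (σ : X → Perm P0) (s : ℝ) (hs : 0 < s) :
    ∃ (ι : Type) (_ : Fintype ι), ∀ E : (ι → ℝ) → (ι → ℝ) → Prop, Equivalence E →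
      ∃ f : X → (ι → ℝ),
        (∀ x x', ∑ i, (f x i - f x' i) ^ 2 = s * ∑ p, (u (σ x p) - u (σ x' p)) ^ 2) ∧
        ((∀ x x', E (f x) (f x')) ∨
          (∀ x x', E (f x) (f x') → ∀ p, u (σ x p) = u (σ x' p))) := by
  classical
  obtain ⟨A, L, T, hgal⟩ := gal u
  obtain ⟨B0, hB0⟩ := exists_nat_gt (∑ t ∈ T, t ^ 2)
  let B : ℕ := B0 + 1
  let D0 : ℕ := (L.factorial * B) ^ 2
  have hBpos : 0 < B := Nat.succ_pos _
  have hD0pos : 0 < D0 := by positivity
  have hBT : ∀ t ∈ T, t ^ 2 < D0 := by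
    intro t ht
    have h1 : t ^ 2 ≤ ∑ t ∈ T, t ^ 2 :=
      Finset.single_le_sum (f := fun t : ℝ => t ^ 2) (fun t _ => sq_nonneg t) ht
    have h2 : (B0 : ℝ) ≤ (D0 : ℝ) := by
      have h3 : B0 ≤ D0 := by
        have h4 : 1 ≤ L.factorial := Nat.factorial_pos L
        have h5 : B ≤ L.factorial * B := Nat.le_mul_of_pos_left _ h4
        have h6 : L.factorial * B ≤ (L.factorial * B) ^ 2 := Nat.le_self_pow (by norm_num) _
        show B0 ≤ (L.factorial * B) ^ 2
        omega
      exact_mod_cast h3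
    linarith
  let m := Fintype.card P0
  let R : ℕ := m * D0
  have hmpos : 0 < m := Fintype.card_pos
  have hRpos : 0 < R := Nat.mul_pos hmpos hD0pos
  let idx : A → ℕ := fun a => (A.equivFin a : ℕ)
  have hidx : Function.Injective idx := fun a b h => A.equivFin.injective (Fin.ext h)
  let P := Σ a : A, Fin (R * 2 ^ idx a)
  let w : P → A := Sigma.fst
  let wr : P → ℝ := fun p => (p.1 : ℝ)
  have hcard : ∀ a, Nat.card {p : P // w p = a} = R * 2 ^ idx a := by
    intro a
    have e1 : {p : P // w p = a} ≃ Fin (R * 2 ^ idx a) := Equiv.sigmaSubtype a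
    rw [Nat.card_congr e1, Nat.card_eq_fintype_card, Fintype.card_fin]
  let η : ℝ := s / (D0 * Fintype.card (Perm P))
  have hcG : (0 : ℝ) < Fintype.card (Perm P) := by
    have : 0 < Fintype.card (Perm P) := Fintype.card_pos
    exact_mod_cast this
  have hD0r : (0 : ℝ) < D0 := by exact_mod_cast hD0pos
  have hη0 : 0 ≤ η := by positivity
  have hη : (Fintype.card (Perm P) : ℝ) * η = s / D0 := by
    simp only [η]
    field_simp
  -- the two configurations
  have hG := CR.words (Y := Perm P) wr (fun σ => σ) η hη0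
  let uV : T × P0 → ℝ := fun q => Real.sqrt (1 - (q.1 : ℝ) ^ 2 / D0) * u q.2
  let σV : (T → X) → Perm (T × P0) := fun v =>
    Equiv.prodShear (Equiv.refl _) (fun t => σ (v t))
  have hV := CR.words uV σV s hs.le
  obtain ⟨x0⟩ := (inferInstance : Nonempty X)
  have hVne : Nonempty (T → X) := ⟨fun _ => x0⟩
  have hsym := CR.symm hG hV (by
      intro σ τ g
      congr 1
      exact Equiv.sum_comp g (fun p => (wr (σ p) - wr (τ p)) ^ 2)) (by
      intro σ; simp)
  obtain ⟨Z, hZ, ι, hι, pos, h1⟩ := hsym Unit inferInstance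
  refine ⟨ι, hι, fun E hE => ?_⟩
  obtain ⟨f, hf1, -, κ, ρV, hκ, hρ⟩ := h1 (fun _ => ()) (fun z z' => E (pos z) (pos z'))
    ⟨fun _ => hE.refl _, fun h => hE.symm h, fun h h' => hE.trans h h'⟩
  let v0 : T → X := fun _ => x0
  have hρV0 : ∀ v, ρV v v := fun v => ((hρ (1, v) (1, v)).1 (hE.refl _)).2
  have hκE : ∀ σ τ, κ σ τ ↔ E (pos (f (σ, v0))) (pos (f (τ, v0))) := by
    intro σ τ
    have := hρ (σ, v0) (τ, v0)
    constructor
    · intro h; exact this.2 ⟨h, hρV0 v0⟩
    · intro h; exact (this.1 h).1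
  have hκr : ∀ σ, κ σ σ := fun σ => (hκE σ σ).2 (hE.refl _)
  have hκs : ∀ σ τ, κ σ τ → κ τ σ := fun σ τ h => (hκE τ σ).2 (hE.symm ((hκE σ τ).1 h))
  have hκt : ∀ σ τ ν, κ σ τ → κ τ ν → κ σ ν := fun σ τ ν h h' =>
    (hκE σ ν).2 (hE.trans ((hκE σ τ).1 h) ((hκE τ ν).1 h'))
  let H : Subgroup (Perm P) :=
    { carrier := {g | κ g 1}
      mul_mem' := by
        intro a b ha hb
        have h2 := hκ a 1 b ha
        rw [one_mul] at h2
        exact hκt _ _ _ h2 hb
      one_mem' := hκr 1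
      inv_mem' := by
        intro a ha
        have h2 := hκ a 1 a⁻¹ ha
        rw [mul_inv_cancel, one_mul] at h2
        exact hκs _ _ h2 }
  have hHmem : ∀ g, g ∈ H ↔ κ g 1 := fun g => Iff.rfl
  have hH : ∀ p q, w p = w q → swap p q ∈ H := by
    intro p q hpq
    rw [hHmem, hκE]
    have hwr : ∀ x, wr (swap p q x) = wr x := by
      intro x
      have hpq' : wr p = wr q := congrArg Subtype.val hpq
      by_cases h2 : x = p
      · subst h2; rw [swap_apply_left]; exact hpq'.symm
      · by_cases h3 : x = q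
        · subst h3; rw [swap_apply_right]; exact hpq'
        · rw [swap_apply_of_ne_of_ne h2 h3]
    have h2 := hf1 (swap p q, v0) (1, v0)
    have h3 : ∑ i, (pos (f (swap p q, v0)) i - pos (f (1, v0)) i) ^ 2 = 0 := by
      rw [h2]
      simp [hwr]
    have h4 : pos (f (swap p q, v0)) = pos (f (1, v0)) := by
      funext i
      have h5 := (Finset.sum_eq_zero_iff_of_nonneg (fun i _ => sq_nonneg _)).1 h3 i
        (Finset.mem_univ i)
      have h6 := pow_eq_zero_iff (two_ne_zero) |>.1 h5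
      linarith
    rw [h4]
    exact hE.refl _
  -- the induced relation on the reals
  let r : ℝ → ℝ → Prop := fun a b => a = b ∨ ∃ p q : P, wr p = a ∧ wr q = b ∧ swap p q ∈ H
  have hwwr : ∀ p q : P, wr p = wr q → w p = w q := fun p q h => Subtype.ext h
  have hr : Equivalence r := by
    refine ⟨fun a => Or.inl rfl, ?_, ?_⟩
    · rintro a b (h | ⟨p, q, hp, hq, h⟩)
      · exact Or.inl h.symm
      · exact Or.inr ⟨q, p, hq, hp, rel_symm h⟩
    · rintro a b c (h | ⟨p, q, hp, hq, h⟩) (h' | ⟨p', q', hp', hq', h'⟩)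
      · exact Or.inl (h.trans h')
      · subst h; exact Or.inr ⟨p', q', hp', hq', h'⟩
      · subst h'; exact Or.inr ⟨p, q, hp, hq, h⟩
      · refine Or.inr ⟨p, q', hp, hq', ?_⟩
        exact rel_trans (rel_trans h (hH q p' (hwwr _ _ (hq.trans hp'.symm)))) h'
  have hrel : ∀ p q : P, r (wr p) (wr q) → swap p q ∈ H := by
    rintro p q (h | ⟨p', q', hp', hq', h⟩)
    · exact hH _ _ (hwwr _ _ h)
    · exact rel_trans (rel_trans (hH p p' (hwwr _ _ hp'.symm)) h) (hH q' q (hwwr _ _ hq'))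
  -- block permutations
  have hblock : ∀ (D' : ℕ), D' ≤ D0 → ∀ (α τ : ℝ) (hA : ∀ i, α + τ * u i ∈ A),
      ∃ j : (P0 × Fin D') ↪ P, (∀ q, wr (j q) = α + τ * u q.1) ∧
        ∀ x x', ∑ p, (wr (Perm.viaEmbedding (prodCongr (σ x) (Equiv.refl (Fin D'))) j p)
          - wr (Perm.viaEmbedding (prodCongr (σ x') (Equiv.refl (Fin D'))) j p)) ^ 2
          = D' * τ ^ 2 * ∑ i, (u (σ x i) - u (σ x' i)) ^ 2 := by
    intro D' hD' α τ hA
    obtain ⟨j, hj⟩ := exists_blocks idx R D' (Nat.mul_le_mul_left _ hD')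
      (fun i => (⟨α + τ * u i, hA i⟩ : A))
    have hjw : ∀ q, wr (j q) = α + τ * u q.1 := by
      intro q
      show ((j q).1 : ℝ) = _
      rw [hj q]
    refine ⟨j, hjw, fun x x' => ?_⟩
    rw [← Fintype.sum_of_injective j j.injective
      (fun q => (τ * (u (σ x q.1) - u (σ x' q.1))) ^ 2)]
    · rw [Fintype.sum_prod_type]
      simp only [Finset.sum_const, Finset.card_univ, Fintype.card_fin, nsmul_eq_mul]
      rw [Finset.mul_sum]
      refine Finset.sum_congr rfl fun i _ => ?_
      ring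
    · intro p hp
      rw [Perm.viaEmbedding_apply_of_notMem _ _ _ hp, Perm.viaEmbedding_apply_of_notMem _ _ _ hp]
      simp
    · intro q
      rw [Perm.viaEmbedding_apply, Perm.viaEmbedding_apply, hjw, hjw]
      congr 1
      simp only [prodCongr_apply, Prod.map_fst]
      ring
  rcases hgal r hr with ⟨c, k, hk, hkL, hA, hmono⟩ | ⟨α, t, ht, hA, hrain⟩
  · -- monochromatic case
    have hdvd : k ^ 2 ∣ D0 := by
      have h2 : k ∣ L.factorial := Nat.dvd_factorial hk hkL
      exact pow_dvd_pow_of_dvd (h2.mul_right B) 2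
    obtain ⟨D', hD'⟩ := hdvd
    have hkD : (k : ℝ) ^ 2 * D' = D0 := by exact_mod_cast hD'.symm
    have hD'le : D' ≤ D0 := by
      rw [hD']; exact Nat.le_mul_of_pos_left _ (by positivity)
    obtain ⟨j, hjw, hsum⟩ := hblock D' hD'le c k hA
    let S : X → Perm P := fun x => Perm.viaEmbedding (prodCongr (σ x) (Equiv.refl (Fin D'))) j
    refine ⟨fun x => pos (f (S x, v0)), ?_, Or.inl ?_⟩
    · intro x x'
      rw [hf1]
      dsimp only
      rw [hsum x x']
      simp only [sub_self, ne_eq, OfNat.ofNat_ne_zero, not_false_eq_true, zero_pow,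
        Finset.sum_const_zero, mul_zero, add_zero]
      rw [← mul_assoc, hη]
      have : s / D0 * (D' * (k : ℝ) ^ 2 * ∑ i, (u (σ x i) - u (σ x' i)) ^ 2)
          = s / D0 * ((k : ℝ) ^ 2 * D') * ∑ i, (u (σ x i) - u (σ x' i)) ^ 2 := by ring
      rw [this, hkD]
      field_simp
    · have hSH : ∀ x, S x ∈ H := by
        intro x
        refine mem_of_rel _ (S x) le_rfl ?_
        intro p
        by_cases hp : p ∈ Set.range j
        · obtain ⟨q, rfl⟩ := hp
          apply hrel
          simp only [S]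
          rw [Perm.viaEmbedding_apply, hjw, hjw]
          exact hmono _ _
        · simp only [S]
          rw [Perm.viaEmbedding_apply_of_notMem _ _ _ hp]
          exact rel_refl p
      intro x x'
      rw [← hκE]
      exact hκt _ _ _ ((hHmem _).1 (hSH x)) (hκs _ _ ((hHmem _).1 (hSH x')))
  · -- rainbow case
    obtain ⟨j, hjw, hsum⟩ := hblock 1 hD0pos α t hA
    let S : X → Perm P := fun x => Perm.viaEmbedding (prodCongr (σ x) (Equiv.refl (Fin 1))) j
    let t' : T := ⟨t, ht⟩
    let vx : X → T → X := fun x t1 => if t1 = t' then x else x0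
    refine ⟨fun x => pos (f (S x, vx x)), ?_, Or.inr ?_⟩
    · intro x x'
      rw [hf1]
      dsimp only
      rw [hsum x x', Fintype.sum_prod_type]
      rw [Finset.sum_eq_single t']
      · have h2 : ∀ i, (uV (σV (vx x) (t', i)) - uV (σV (vx x') (t', i))) ^ 2
            = (1 - t ^ 2 / D0) * (u (σ x i) - u (σ x' i)) ^ 2 := by
          intro i
          simp only [uV, σV, prodShear_apply, Equiv.refl_apply, vx, if_true]
          rw [← mul_sub, mul_pow, Real.sq_sqrt]
          rw [sub_nonneg, div_le_one hD0r]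
          exact (hBT t ht).le
        simp_rw [h2]
        rw [← Finset.mul_sum, ← mul_assoc, hη]
        push_cast
        field_simp
        ring
      · intro t1 _ hne
        refine Finset.sum_eq_zero fun i _ => ?_
        simp only [uV, σV, prodShear_apply, Equiv.refl_apply, vx, if_neg hne, sub_self]
        simp
      · intro h; exact absurd (Finset.mem_univ _) h
    · intro x x' hxx i
      have h2 : κ (S x) (S x') := ((hρ (S x, vx x) (S x', vx x')).1 hxx).1
      have h3 : S x * (S x')⁻¹ ∈ H := by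
        rw [hHmem]
        have h4 := hκ _ _ (S x')⁻¹ h2
        rwa [mul_inv_cancel] at h4
      have h5 := rel_of_mem w idx hidx R hRpos hcard hH h3 (S x' (j (i, 0)))
      have h6 : (S x * (S x')⁻¹) (S x' (j (i, 0))) = S x (j (i, 0)) := by
        simp [Perm.mul_apply]
      rw [h6] at h5
      simp only [S] at h5
      rw [Perm.viaEmbedding_apply, Perm.viaEmbedding_apply] at h5
      apply hrain
      refine Or.inr ⟨_, _, ?_, ?_, h5⟩
      · rw [hjw]; rfl
      · rw [hjw]; rfl

end Pool.Agent.H228R5
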