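import Pool.Agent.H228R5.CR
import Pool.Agent.H228R4.Blocks

/-!
# Rearrangements of one real word form a Ramsey configuration
-/

set_option autoImplicit false

namespace Pool.Agent.H228R5

open Finset Pool.Agent.H228R4

lemma sum_elim_count_real {N J A : Type} [Fintype N] [Fintype J] (t : N → J ⊕ A)
    (g : J ⊕ A → ℝ) (hg : ∀ a, g (Sum.inr a) = 0) :
    ∑ i, g (t i) = ∑ j, (cnt t j : ℝ) * g (Sum.inl j) := by
  classical
  have h1 : ∀ i, g (t i) = ∑ j, (ind (t i) j : ℝ) * g (Sum.inl j) := by
    intro i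
    cases t i with
    | inl j0 =>
      rw [Finset.sum_eq_single j0]
      · rw [ind_inl]; simp
      · intro b _ hb
        rw [ind_inl_ne (Ne.symm hb)]; simp
      · intro hh; exact absurd (Finset.mem_univ _) hh
    | inr a => simp [hg, ind_inr]
  simp_rw [h1]
  rw [Finset.sum_comm]
  refine Finset.sum_congr rfl fun j _ => ?_
  rw [← Finset.sum_mul]
  unfold cnt
  push_cast
  rfl

theorem CR.words {Y P : Type} [Fintype P] (u : P → ℝ) (σ : Y → Equiv.Perm P) (s : ℝ)
    (hs : 0 ≤ s) :
    CR Y (fun y y' => s * ∑ p, (u (σ y p) - u (σ y' p)) ^ 2) (fun _ => True) := by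
  classical
  intro K hK
  rcases Nat.eq_zero_or_pos (Fintype.card P) with h0 | hpos
  · have hemp : IsEmpty P := Fintype.card_eq_zero_iff.1 h0
    refine ⟨Unit, inferInstance, Empty, inferInstance, fun _ _ => 0, fun c E hE => ?_⟩
    exact ⟨fun _ => (), fun y y' => by simp, fun _ _ => rfl, trivial⟩
  · obtain ⟨l, hl⟩ : ∃ l, Fintype.card P = l + 1 := ⟨Fintype.card P - 1, by omega⟩
    have e : P ≃ Fin (l + 1) := Fintype.equivFinOfCardEq hl
    obtain ⟨d, hd, hblk⟩ := blocks_aux (l + 1) l (Nat.succ_pos l)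
    obtain ⟨n, hn⟩ := hblk (Nat.card K)
    have eK : K ≃ Fin (Nat.card K) := Finite.equivFin K
    refine ⟨Fin n → Fin (l + 1), inferInstance, Fin n, inferInstance,
      fun z i => Real.sqrt (s / d) * u (e.symm (z i)), fun c E hE => ?_⟩
    obtain ⟨t, ht, hi⟩ := hn (fun z => eK (c z))
    let x : Y → Fin (l + 1) → Fin (l + 1) := fun y q => e (σ y (e.symm q))
    have hms : ∀ y, ms (x y) = ms (fun q : Fin (l + 1) => q) := by
      intro y
      have := ms_perm (fun q : Fin (l + 1) => q) ((e.symm.trans (σ y)).trans e)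
      rw [← this]
      rfl
    refine ⟨fun y => ev t (x y), ?_, ?_, trivial⟩
    · intro y y'
      let g : Fin (l + 1) ⊕ Fin (l + 1) → ℝ :=
        Sum.elim (fun q => (s / d) * (u (σ y (e.symm q)) - u (σ y' (e.symm q))) ^ 2) (fun _ => 0)
      have h1 : ∀ i, (Real.sqrt (s / d) * u (e.symm (ev t (x y) i))
          - Real.sqrt (s / d) * u (e.symm (ev t (x y') i))) ^ 2 = g (t i) := by
        intro i
        unfold ev
        cases t i with
        | inl q =>
          simp only [Sum.elim_inl, g, x, Equiv.symm_apply_apply]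
          rw [← mul_sub, mul_pow, Real.sq_sqrt (by positivity)]
        | inr a => simp [g]
      simp_rw [h1]
      rw [sum_elim_count_real t g (fun a => rfl)]
      simp_rw [ht]
      simp only [g, Sum.elim_inl]
      rw [Finset.mul_sum, ← Equiv.sum_comp e]
      refine Finset.sum_congr rfl fun p _ => ?_
      rw [Equiv.symm_apply_apply]
      field_simp
    · intro y y'
      exact eK.injective (hi _ _ ((hms y).trans (hms y').symm))

end Pool.Agent.H228R5
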